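import Pool.Agent.MP_6bb8b9_an.H40.Repr

/-!
Cotlar inequality and the weak `L^2` bound of the maximal singular integral.
-/

open MeasureTheory Set Filter Metric
open scoped ENNReal NNReal Topology

namespace Pool.Agent.MP_6bb8b9_an.H40

open Pool.Agent.MP_6bb8b9_an.H2

variable {n : ℕ} {𝕜 : Type} [RCLike 𝕜]

lemma add_three_sq_le (a b c : ℝ≥0∞) : (a + b + c) ^ 2 ≤ 3 * (a ^ 2 + b ^ 2 + c ^ 2) := by
  by_cases ha : a = ∞
  · simp [ha]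
  by_cases hb : b = ∞
  · simp [hb]
  by_cases hc : c = ∞
  · simp [hc]
  lift a to ℝ≥0 using ha
  lift b to ℝ≥0 using hb
  lift c to ℝ≥0 using hc
  have : (a + b + c) ^ 2 ≤ 3 * (a ^ 2 + b ^ 2 + c ^ 2) := by
    rw [← NNReal.coe_le_coe]; push_cast
    nlinarith [sq_nonneg ((a : ℝ) - b), sq_nonneg ((b : ℝ) - c), sq_nonneg ((a : ℝ) - c)]
  exact_mod_cast this

lemma lintegral_sq_eq {f : Euc n → 𝕜} : ∫⁻ x, ‖f x‖ₑ ^ 2 = eLpNorm f 2 volume ^ 2 := by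
  have := eLpNorm_nnreal_pow_eq_lintegral (μ := (volume : Measure (Euc n))) (f := f) (p := 2)
    (by norm_num)
  simpa using this.symm

lemma lintegral_T_le (T : Lp 𝕜 2 (volume : Measure (Euc n)) →L[𝕜] Lp 𝕜 2 (volume : Measure (Euc n)))
    {f : Euc n → 𝕜} (hf : MemLp f 2 volume) :
    ∫⁻ x, ‖T (hf.toLp f) x‖ₑ ^ 2 ≤ ‖T‖ₑ ^ 2 * ∫⁻ x, ‖f x‖ₑ ^ 2 := by
  rw [lintegral_sq_eq, lintegral_sq_eq, ← mul_pow, ← Lp.enorm_def, ← Lp.enorm_toLp hf]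
  gcongr
  exact T.le_opENorm _

lemma volume_ball_eq (x : Euc n) {r : ℝ} (hr : 0 < r) :
    volume (ball x r) = ENNReal.ofReal (r ^ n) * volume (ball (0 : Euc n) 1) := by
  rw [Measure.addHaar_ball_of_pos _ x hr]; simp

lemma volume_closedBall_eq (x : Euc n) {r : ℝ} (hr : 0 < r) :
    volume (closedBall x r) = ENNReal.ofReal (r ^ n) * volume (ball (0 : Euc n) 1) := by
  rw [Measure.addHaar_closedBall _ x hr.le]; simp

lemma Mx_le_of_bound {h : Euc n → ℝ≥0∞} {t : ℝ≥0∞} (ht : ∀ᵐ y ∂volume, h y ≤ t) (x : Euc n) :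
    Mx h x ≤ t * volume (ball (0 : Euc n) 1) := by
  refine iSup₂_le fun r hr => ?_
  have hpos : ENNReal.ofReal (r ^ n) ≠ 0 := (ENNReal.ofReal_pos.2 (by positivity)).ne'
  rw [ENNReal.div_le_iff hpos ENNReal.ofReal_ne_top]
  calc ∫⁻ y in ball x r, h y ≤ ∫⁻ _ in ball x r, t := lintegral_mono_ae (ae_restrict_of_ae ht)
    _ = t * volume (ball x r) := by rw [setLIntegral_const]
    _ = _ := by rw [volume_ball_eq x hr]; ring

lemma setLIntegral_le_Mx (h : Euc n → ℝ≥0∞) (x : Euc n) {r : ℝ} (hr : 0 < r) :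
    ∫⁻ y in ball x r, h y ≤ Mx h x * ENNReal.ofReal (r ^ n) := by
  have hpos : ENNReal.ofReal (r ^ n) ≠ 0 := (ENNReal.ofReal_pos.2 (by positivity)).ne'
  rw [← ENNReal.div_le_iff hpos ENNReal.ofReal_ne_top]
  exact le_iSup₂_of_le (f := fun (r : ℝ) (_ : 0 < r) =>
    (∫⁻ y in Metric.ball x r, h y) / ENNReal.ofReal (r ^ n)) r hr le_rfl

/-- The far part of the truncated integral varies little on the half ball. -/
lemma far_diff {K : Euc n → Euc n → 𝕜} {c δ : ℝ} (hK : KB K c δ) (hI : SpecInt K) {CA : ℝ≥0}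
    (hA : ∀ h : Euc n → ℝ≥0∞, AEMeasurable h volume → ∀ (x : Euc n) (r : ℝ), 0 < r →
      ∫⁻ y in {y | r ≤ ‖y - x‖}, ENNReal.ofReal (r ^ δ * ‖y - x‖ ^ (-(n : ℝ) - δ)) * h y
        ≤ CA * Mx h x)
    {g : Euc n → 𝕜} (hg : Integrable g volume) {x z : Euc n} {ε : ℝ} (hε : 0 < ε)
    (hz : z ∈ ball x (ε / 2)) :
    ‖Tr K g x ε - ∫ y, K z y * ({y | ε < ‖y - x‖}.indicator g y)‖ₑ ≤
      ENNReal.ofReal c * (CA * Mx (fun y => ‖g y‖ₑ) x) := by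
  set A : Set (Euc n) := {y | ε < ‖y - x‖} with hAdef
  have hAm : MeasurableSet A := (isOpen_lt continuous_const (by fun_prop)).measurableSet
  have hzx : ‖x - z‖ < ε / 2 := by
    rw [norm_sub_rev]; simpa [dist_eq_norm] using hz
  have e1 : ∫ y, K z y * (A.indicator g y) = ∫ y in A, K z y * g y := by
    rw [← integral_indicator hAm]
    congr 1; funext y
    by_cases hy : y ∈ A <;> simp [hy]
  have i1 : IntegrableOn (fun y => K x y * g y) A volume := hI.2 g hg x ε hε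
  have i2 : IntegrableOn (fun y => K z y * g y) A volume := by
    refine (hI.2 g hg z (ε / 2) (by positivity)).mono_set fun y hy => ?_
    have h1 : ε < ‖y - x‖ := hy
    have h3 : ‖y - x‖ ≤ ‖y - z‖ + ‖x - z‖ := by
      calc ‖y - x‖ = ‖(y - z) - (x - z)‖ := by congr 1; abel
        _ ≤ _ := norm_sub_le _ _
    show ε / 2 < ‖y - z‖
    linarith
  rw [e1, Tr, ← integral_sub i1 i2]
  refine (enorm_integral_le_lintegral_enorm _).trans ?_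
  refine le_trans ?_ (mul_le_mul_right (hA (fun y => ‖g y‖ₑ) hg.1.enorm x ε hε) _)
  rw [← lintegral_const_mul' _ _ ENNReal.ofReal_ne_top]
  refine le_trans (setLIntegral_mono' hAm fun y hy => ?_)
    (lintegral_mono_set (t := {y | ε ≤ ‖y - x‖}) fun y (hy : ε < ‖y - x‖) => (hy.le : ε ≤ ‖y - x‖))
  have h1 : ε < ‖y - x‖ := hy
  have h2 : 2 * ‖x - z‖ < ‖x - y‖ := by rw [norm_sub_rev x y]; linarith
  have h3 : ‖K x y - K z y‖ ≤ c * (ε ^ δ * ‖y - x‖ ^ (-(n : ℝ) - δ)) := by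
    have h4 := hK.reg x y z h2
    have h5 : ‖x - z‖ ^ δ ≤ ε ^ δ :=
      Real.rpow_le_rpow (norm_nonneg _) (by linarith) hK.δ_pos.le
    have h6 : 0 ≤ ‖x - y‖ ^ (-(n : ℝ) - δ) := by positivity
    rw [norm_sub_rev y x, ← mul_assoc]
    calc ‖K x y - K z y‖ ≤ c * ‖x - z‖ ^ δ * ‖x - y‖ ^ (-(n : ℝ) - δ) := by
          linarith [norm_nonneg (K y x - K y z)]
      _ ≤ _ := by gcongr; exact hK.c_nonneg
  rw [← sub_mul, enorm_mul, ← mul_assoc, ← ENNReal.ofReal_mul hK.c_nonneg]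
  gcongr
  rw [← ofReal_norm]
  exact ENNReal.ofReal_le_ofReal h3

/-- Cotlar inequality, squared form. -/
lemma cotlar {T} {K : Euc n → Euc n → 𝕜} (hT : IsCZO T K) {c δ : ℝ} (hK : KB K c δ)
    (hI : SpecInt K) {CA : ℝ≥0}
    (hA : ∀ h : Euc n → ℝ≥0∞, AEMeasurable h volume → ∀ (x : Euc n) (r : ℝ), 0 < r →
      ∫⁻ y in {y | r ≤ ‖y - x‖}, ENNReal.ofReal (r ^ δ * ‖y - x‖ ^ (-(n : ℝ) - δ)) * h y
        ≤ CA * Mx h x)
    {g : Euc n → 𝕜} (hg : Integrable g volume) (hg2 : MemLp g 2 volume) {R : ℝ} (hR : 0 < R)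
    (hs : ∀ y, g y ≠ 0 → ‖y‖ ≤ R) {t : ℝ≥0∞} (ht : ∀ᵐ y ∂volume, ‖g y‖ₑ ≤ t)
    (x : Euc n) {ε : ℝ} (hε : 0 < ε) :
    ‖Tr K g x ε‖ₑ ^ 2 * volume (ball (0 : Euc n) 1) ≤
      3 * Mx (fun y => ‖T (hg2.toLp g) y‖ₑ ^ 2) x +
        3 * (‖T‖ₑ ^ 2 * 2 ^ n + (ENNReal.ofReal c * (CA * volume (ball (0 : Euc n) 1))) ^ 2) *
          (t ^ 2 * volume (ball (0 : Euc n) 1)) := by
  set ω : ℝ≥0∞ := volume (ball (0 : Euc n) 1) with hω
  set D : ℝ≥0∞ := ENNReal.ofReal c * (CA * ω) with hD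
  set A : Set (Euc n) := {y | ε < ‖y - x‖} with hAdef
  have hAm : MeasurableSet A := (isOpen_lt continuous_const (by fun_prop)).measurableSet
  have hAc : Aᶜ = closedBall x ε := by
    ext y; simp [A, dist_eq_norm]
  have m1 : MemLp (Aᶜ.indicator g) 2 volume := hg2.indicator hAm.compl
  have m2 : MemLp (A.indicator g) 2 volume := hg2.indicator hAm
  have hsplit : m2.toLp _ = hg2.toLp g - m1.toLp _ := by
    rw [← MemLp.toLp_sub]
    refine MemLp.toLp_congr _ _ (Eventually.of_forall fun y => ?_)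
    by_cases hy : y ∈ A <;> simp [hy]
  have hrep := repr_off hT hK hI m2 hR hε (x := x) fun y hy => by
    by_cases hyA : y ∈ A
    · exact ⟨le_of_lt hyA, hs y (by simpa [hyA] using hy)⟩
    · simp [hyA] at hy
  have hsub : ∀ᵐ z ∂volume, T (m2.toLp _) z = T (hg2.toLp g) z - T (m1.toLp _) z := by
    rw [hsplit, map_sub]
    exact Lp.coeFn_sub _ _
  have hpt : ∀ᵐ z ∂volume, z ∈ ball x (ε / 2) → ‖Tr K g x ε‖ₑ ^ 2 ≤
      3 * (‖T (hg2.toLp g) z‖ₑ ^ 2 + ‖T (m1.toLp _) z‖ₑ ^ 2 + (D * t) ^ 2) := by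
    filter_upwards [hrep, hsub] with z h1 h2 hz
    refine le_trans ?_ (add_three_sq_le _ _ _)
    gcongr
    have h3 := far_diff hK hI hA hg hε hz
    rw [← h1 hz, h2] at h3
    have h4 : ENNReal.ofReal c * (CA * Mx (fun y => ‖g y‖ₑ) x) ≤ D * t := by
      calc _ ≤ ENNReal.ofReal c * (CA * (t * ω)) := by gcongr; exact Mx_le_of_bound ht x
        _ = D * t := by rw [hD]; ring
    calc ‖Tr K g x ε‖ₑ = ‖(T (hg2.toLp g) z - T (m1.toLp _) z) +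
          (Tr K g x ε - (T (hg2.toLp g) z - T (m1.toLp _) z))‖ₑ := by congr 1; ring
      _ ≤ ‖T (hg2.toLp g) z - T (m1.toLp _) z‖ₑ +
          ‖Tr K g x ε - (T (hg2.toLp g) z - T (m1.toLp _) z)‖ₑ := enorm_add_le _ _
      _ ≤ _ := add_le_add enorm_sub_le (h3.trans h4)
  have hε2 : 0 < ε / 2 := by positivity
  set ρ : ℝ≥0∞ := ENNReal.ofReal ((ε / 2) ^ n) with hρ
  have hρ0 : ρ ≠ 0 := (ENNReal.ofReal_pos.2 (by positivity)).ne'
  have hρ2 : ENNReal.ofReal (ε ^ n) = 2 ^ n * ρ := by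
    have : ε ^ n = 2 ^ n * (ε / 2) ^ n := by rw [← mul_pow]; congr 1; ring
    rw [this, ENNReal.ofReal_mul (by positivity), ENNReal.ofReal_pow (by norm_num)]
    simp [hρ]
  have hg1 : ∫⁻ z, ‖Aᶜ.indicator g z‖ₑ ^ 2 ≤ t ^ 2 * (2 ^ n * ρ * ω) := by
    have : (fun z => ‖Aᶜ.indicator g z‖ₑ ^ 2) = Aᶜ.indicator fun z => ‖g z‖ₑ ^ 2 := by
      funext z; by_cases hz : z ∈ Aᶜ <;> simp [hz]
    rw [this, lintegral_indicator hAm.compl, hAc, ← hρ2, ← volume_closedBall_eq x hε,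
      ← setLIntegral_const]
    refine lintegral_mono_ae (ae_restrict_of_ae ?_)
    filter_upwards [ht] with y hy
    gcongr
  have ma : AEMeasurable (fun z => ‖T (hg2.toLp g) z‖ₑ ^ 2) (volume.restrict (ball x (ε / 2))) :=
    ((Lp.aestronglyMeasurable _).enorm.pow_const 2).restrict
  have mb : AEMeasurable (fun z => ‖T (m1.toLp _) z‖ₑ ^ 2) (volume.restrict (ball x (ε / 2))) :=
    ((Lp.aestronglyMeasurable _).enorm.pow_const 2).restrict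
  have key : ‖Tr K g x ε‖ₑ ^ 2 * ω * ρ ≤
      (3 * Mx (fun y => ‖T (hg2.toLp g) y‖ₑ ^ 2) x +
        3 * (‖T‖ₑ ^ 2 * 2 ^ n + D ^ 2) * (t ^ 2 * ω)) * ρ := by
    calc ‖Tr K g x ε‖ₑ ^ 2 * ω * ρ = ∫⁻ _ in ball x (ε / 2), ‖Tr K g x ε‖ₑ ^ 2 := by
          rw [setLIntegral_const, volume_ball_eq x hε2]; ring
      _ ≤ ∫⁻ z in ball x (ε / 2),
          3 * (‖T (hg2.toLp g) z‖ₑ ^ 2 + ‖T (m1.toLp _) z‖ₑ ^ 2 + (D * t) ^ 2) :=
          setLIntegral_mono_ae' measurableSet_ball hpt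
      _ = 3 * ((∫⁻ z in ball x (ε / 2), ‖T (hg2.toLp g) z‖ₑ ^ 2) +
          (∫⁻ z in ball x (ε / 2), ‖T (m1.toLp _) z‖ₑ ^ 2) + (D * t) ^ 2 * (ρ * ω)) := by
          rw [lintegral_const_mul' _ _ (by norm_num), lintegral_add_right _ measurable_const,
            lintegral_add_left' ma, setLIntegral_const, volume_ball_eq x hε2]
      _ ≤ 3 * (Mx (fun y => ‖T (hg2.toLp g) y‖ₑ ^ 2) x * ρ +
          ‖T‖ₑ ^ 2 * (t ^ 2 * (2 ^ n * ρ * ω)) + (D * t) ^ 2 * (ρ * ω)) := by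
          gcongr
          · exact setLIntegral_le_Mx _ x hε2
          · refine (setLIntegral_le_lintegral _ _).trans ((lintegral_T_le T m1).trans ?_)
            gcongr
      _ = _ := by ring
  exact (ENNReal.mul_le_mul_iff_left hρ0 ENNReal.ofReal_ne_top).1 key

theorem itemB (_hn : 0 < n) {T} {K : Euc n → Euc n → 𝕜} (hT : IsCZO T K) {c δ : ℝ}
    (hK : KB K c δ) (hM : SpecMWeak n) (hA : SpecAnnuli n δ) (hI : SpecInt K) :
    SpecWeak2 K := by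
  obtain ⟨CM, hM⟩ := hM
  obtain ⟨CA, hA⟩ := hA
  have hω0 : volume (ball (0 : Euc n) 1) ≠ 0 := (measure_ball_pos _ _ one_pos).ne'
  have hω1 : volume (ball (0 : Euc n) 1) ≠ ∞ := measure_ball_lt_top.ne
  obtain ⟨W, hW⟩ : ∃ W : ℝ≥0, volume (ball (0 : Euc n) 1) = W := ⟨_, (ENNReal.coe_toNNReal hω1).symm⟩
  have hW0 : W ≠ 0 := by rintro rfl; exact hω0 (by simpa using hW)
  set E : ℝ≥0 := 3 * (‖T‖₊ ^ 2 * 2 ^ n + (c.toNNReal * (CA * W)) ^ 2) with hE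
  refine ⟨E + 1, 3 / W * (CM * ‖T‖₊ ^ 2), fun g hg hb t ht => ?_⟩
  obtain ⟨R, hR, hRs⟩ : ∃ R : ℝ, 0 < R ∧ ∀ y, g y ≠ 0 → ‖y‖ ≤ R := by
    obtain ⟨R, hR, h⟩ := hb.exists_pos_norm_le
    exact ⟨R, hR, fun y hy => h y hy⟩
  have htop : MemLp g ∞ volume :=
    memLp_top_of_bound_enorm hg t ht
  have hfin : volume (closedBall (0 : Euc n) R) ≠ ∞ := measure_closedBall_lt_top.ne
  have hzero : ∀ y, y ∉ closedBall (0 : Euc n) R → g y = 0 := fun y hy => by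
    by_contra h0
    exact hy (by simpa using hRs y h0)
  have hg2 : MemLp g 2 volume := htop.mono_exponent_of_measure_support_ne_top hzero hfin le_top
  have hg1 : Integrable g volume := by
    rw [← memLp_one_iff_integrable]
    exact htop.mono_exponent_of_measure_support_ne_top hzero hfin le_top
  set F : Euc n → ℝ≥0∞ := fun y => ‖T (hg2.toLp g) y‖ₑ ^ 2 with hF
  have hsub : {x | (((E + 1 : ℝ≥0) : ℝ≥0∞) * t : ℝ≥0∞) < maxSing K g x} ⊆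
      {x | ((t ^ 2 * W / 3 : ℝ≥0) : ℝ≥0∞) < Mx F x} := by
    intro x hx
    simp only [mem_ofPred_eq, maxSing, lt_iSup_iff] at hx
    obtain ⟨ε, hε, hx⟩ := hx
    rw [if_pos (hI.2 g hg1 x ε hε)] at hx
    have h1 := cotlar hT hK hI hA hg1 hg2 hR hRs ht x hε
    rw [hW] at h1
    change _ < ‖Tr K g x ε‖ₑ at hx
    show _ < Mx F x
    by_contra hle
    rw [not_lt] at hle
    have h2 : ‖Tr K g x ε‖ₑ ^ 2 * W ≤ ((t ^ 2 * W + E * (t ^ 2 * W) : ℝ≥0) : ℝ≥0∞) := by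
      refine h1.trans ?_
      have e1 : (3 : ℝ≥0∞) * ((t ^ 2 * W / 3 : ℝ≥0) : ℝ≥0∞) = ((t ^ 2 * W : ℝ≥0) : ℝ≥0∞) := by
        rw [← ENNReal.coe_ofNat, ← ENNReal.coe_mul]
        congr 1
        field_simp
      rw [ENNReal.coe_add]
      refine add_le_add ?_ (le_of_eq ?_)
      · rw [← e1]; gcongr
      · rw [hE]; push_cast; rfl
    have h3 : ‖Tr K g x ε‖₊ ^ 2 * W ≤ t ^ 2 * W + E * (t ^ 2 * W) := by
      rw [enorm_eq_nnnorm] at h2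
      exact_mod_cast h2
    have h4 : (E + 1) * t < ‖Tr K g x ε‖₊ := by
      rw [enorm_eq_nnnorm] at hx
      exact_mod_cast hx
    have hWpos : (0 : ℝ) < W := by positivity
    have h5 : ((E : ℝ) + 1) * t < ‖Tr K g x ε‖ := by exact_mod_cast h4
    have h6 : ‖Tr K g x ε‖ ^ 2 * W ≤ (t : ℝ) ^ 2 * W + E * ((t : ℝ) ^ 2 * W) := by
      exact_mod_cast h3
    have h7 : ‖Tr K g x ε‖ ^ 2 ≤ (t : ℝ) ^ 2 * (E + 1) := by
      refine le_of_mul_le_mul_right ?_ hWpos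
      linarith
    have h8 : (((E : ℝ) + 1) * t) ^ 2 < ‖Tr K g x ε‖ ^ 2 :=
      pow_lt_pow_left₀ h5 (by positivity) two_ne_zero
    have hE0 : (0 : ℝ) ≤ E := E.2
    nlinarith [mul_nonneg (sq_nonneg (t : ℝ)) (mul_nonneg hE0 (by linarith : (0 : ℝ) ≤ E + 1))]
  have h1 := hM F ((Lp.aestronglyMeasurable _).enorm.pow_const 2) (t ^ 2 * W / 3)
  have h2 := lintegral_T_le T hg2
  have e : (t : ℝ≥0∞) ^ 2 = ((3 / W : ℝ≥0) : ℝ≥0∞) * ((t ^ 2 * W / 3 : ℝ≥0) : ℝ≥0∞) := by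
    rw [← ENNReal.coe_mul, ← ENNReal.coe_pow]
    congr 1
    field_simp
  calc (t : ℝ≥0∞) ^ 2 * volume {x | (((E + 1 : ℝ≥0) : ℝ≥0∞) * t : ℝ≥0∞) < maxSing K g x}
      ≤ (t : ℝ≥0∞) ^ 2 * volume {x | ((t ^ 2 * W / 3 : ℝ≥0) : ℝ≥0∞) < Mx F x} := by gcongr
    _ = ((3 / W : ℝ≥0) : ℝ≥0∞) * (((t ^ 2 * W / 3 : ℝ≥0) : ℝ≥0∞) *
          volume {x | ((t ^ 2 * W / 3 : ℝ≥0) : ℝ≥0∞) < Mx F x}) := by rw [e, mul_assoc]
    _ ≤ ((3 / W : ℝ≥0) : ℝ≥0∞) * (CM * (‖T‖ₑ ^ 2 * ∫⁻ x, ‖g x‖ₑ ^ 2)) := by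
        exact mul_le_mul_right (h1.trans (mul_le_mul_right h2 _)) _
    _ = _ := by
        rw [ENNReal.coe_mul, ENNReal.coe_mul, ENNReal.coe_pow, mul_assoc, mul_assoc]; rfl

end Pool.Agent.MP_6bb8b9_an.H40
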