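import Pool.Agent.MP_6bb8b9_an.H2.Spec

/-!
The kernel represents the operator on square integrable functions of bounded support, away from
the support.
-/

open MeasureTheory Set Filter Metric
open scoped ENNReal NNReal Topology

namespace Pool.Agent.MP_6bb8b9_an.H40

open Pool.Agent.MP_6bb8b9_an.H2

variable {n : ℕ} {𝕜 : Type} [RCLike 𝕜]

lemma ker_bound {K : Euc n → Euc n → 𝕜} {c δ : ℝ} (hK : KB K c δ) {f : Euc n → 𝕜} {z : Euc n}
    {r : ℝ} (hr : 0 < r) (hs : ∀ y, f y ≠ 0 → r ≤ ‖z - y‖) (y : Euc n) :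
    ‖K z y * f y‖ ≤ (c * r ^ (-(n : ℝ))) * ‖f y‖ := by
  by_cases hy : f y = 0
  · simp [hy]
  have h1 := hs y hy
  have hne : z ≠ y := by
    rintro rfl
    simp at h1
    linarith
  rw [norm_mul]
  refine mul_le_mul_of_nonneg_right ((hK.size z y hne).trans ?_) (norm_nonneg _)
  refine mul_le_mul_of_nonneg_left ?_ hK.c_nonneg
  exact Real.rpow_le_rpow_of_nonpos hr h1 (by simp)

lemma ker_int {K : Euc n → Euc n → 𝕜} {c δ : ℝ} (hK : KB K c δ) (hI : SpecInt K)
    {f : Euc n → 𝕜} (hf : Integrable f volume) {z : Euc n}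
    {r : ℝ} (hr : 0 < r) (hs : ∀ y, f y ≠ 0 → r ≤ ‖z - y‖) :
    Integrable (fun y => K z y * f y) volume :=
  Integrable.mono' (hf.norm.const_mul (c * r ^ (-(n : ℝ))))
    ((hI.1 z).mul hf.aestronglyMeasurable) (Eventually.of_forall (ker_bound hK hr hs))

lemma ker_int_le {K : Euc n → Euc n → 𝕜} {c δ : ℝ} (hK : KB K c δ)
    {f : Euc n → 𝕜} (hf : Integrable f volume) {z : Euc n}
    {r : ℝ} (hr : 0 < r) (hs : ∀ y, f y ≠ 0 → r ≤ ‖z - y‖) :
    ‖∫ y, K z y * f y‖ ≤ (c * r ^ (-(n : ℝ))) * ∫ y, ‖f y‖ := by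
  rw [← integral_const_mul]
  exact norm_integral_le_of_norm_le (hf.norm.const_mul _)
    (Eventually.of_forall (ker_bound hK hr hs))

/-- A smooth cutoff function. -/
lemma exists_cutoff (x : Euc n) {ε R : ℝ} (hε : 0 < ε) (hR : 0 < R) :
    ∃ χ : Euc n → ℝ, (∀ m : ℕ, ContDiff ℝ m χ) ∧ (∀ y, 0 ≤ χ y ∧ χ y ≤ 1) ∧
      (∀ y, ε ≤ ‖y - x‖ → ‖y‖ ≤ R → χ y = 1) ∧
      (∀ y, χ y ≠ 0 → 3 * ε / 4 ≤ ‖y - x‖ ∧ ‖y‖ ≤ 2 * R) := by
  let b1 : ContDiffBump x := ⟨3 * ε / 4, ε, by positivity, by linarith⟩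
  let b2 : ContDiffBump (0 : Euc n) := ⟨R, 2 * R, hR, by linarith⟩
  refine ⟨fun y => (1 - b1 y) * b2 y, fun m => ?_, fun y => ⟨?_, ?_⟩, fun y h1 h2 => ?_,
    fun y hy => ⟨?_, ?_⟩⟩
  · exact (contDiff_const.sub b1.contDiff).mul b2.contDiff
  · exact mul_nonneg (sub_nonneg.2 b1.le_one) b2.nonneg
  · exact mul_le_one₀ (by linarith [b1.nonneg (x := y)]) b2.nonneg b2.le_one
  · have e1 : b1 y = 0 := b1.zero_of_le_dist (by rw [dist_eq_norm]; exact h1)
    have e2 : b2 y = 1 := b2.one_of_mem_closedBall (by simpa using h2)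
    simp [e1, e2]
  · by_contra hlt
    have e1 : b1 y = 1 := b1.one_of_mem_closedBall (by
      rw [mem_closedBall, dist_eq_norm]; exact (not_le.1 hlt).le)
    simp [e1] at hy
  · by_contra hlt
    have e2 : b2 y = 0 := b2.zero_of_le_dist (by simpa using (not_le.1 hlt).le)
    simp [e2] at hy

/-- The `L^1` norm of a function supported in a ball is bounded by its `L^2` norm. -/
lemma integral_norm_le {f : Euc n → 𝕜} {ρ : ℝ} (hf : MemLp f 2 volume)
    (hs : ∀ y, f y ≠ 0 → ‖y‖ ≤ ρ) {η : ℝ} (hη : 0 ≤ η)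
    (h2 : eLpNorm f 2 volume ≤ ENNReal.ofReal η) :
    ∫ y, ‖f y‖ ≤ η * ((volume (closedBall (0 : Euc n) ρ)) ^ (1 / 2 : ℝ)).toReal := by
  have hsupp : Function.support f ⊆ closedBall (0 : Euc n) ρ := fun y hy => by
    simpa using hs y hy
  have hfin : volume (closedBall (0 : Euc n) ρ) ≠ ∞ := measure_closedBall_lt_top.ne
  have e1 : eLpNorm f 1 volume = eLpNorm f 1 (volume.restrict (closedBall (0 : Euc n) ρ)) :=
    (eLpNorm_restrict_eq_of_support_subset hsupp).symm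
  have h3 := eLpNorm_le_eLpNorm_mul_rpow_measure_univ
    (μ := volume.restrict (closedBall (0 : Euc n) ρ)) (f := f) (p := 1) (q := 2) (by norm_num)
    hf.1.restrict
  rw [← e1, Measure.restrict_apply_univ] at h3
  have h4 : eLpNorm f 1 volume ≤
      ENNReal.ofReal η * (volume (closedBall (0 : Euc n) ρ)) ^ (1 / 2 : ℝ) := by
    refine h3.trans ?_
    have : (1 / (1 : ℝ≥0∞).toReal - 1 / (2 : ℝ≥0∞).toReal) = (1 / 2 : ℝ) := by norm_num
    rw [this]
    gcongr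
    exact (eLpNorm_mono_measure _ Measure.restrict_le_self).trans h2
  rw [integral_norm_eq_lintegral_enorm hf.1, ← eLpNorm_one_eq_lintegral_enorm]
  have h5 : (volume (closedBall (0 : Euc n) ρ)) ^ (1 / 2 : ℝ) ≠ ∞ :=
    ENNReal.rpow_ne_top_of_nonneg (by norm_num) hfin
  refine (ENNReal.toReal_mono (ENNReal.mul_ne_top ENNReal.ofReal_ne_top h5) h4).trans ?_
  rw [ENNReal.toReal_mul, ENNReal.toReal_ofReal hη]

lemma repr_off {T} {K : Euc n → Euc n → 𝕜} (hT : IsCZO T K) {c δ : ℝ} (hK : KB K c δ)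
    (hI : SpecInt K) {h : Euc n → 𝕜} (h2 : MemLp h 2 volume) {R : ℝ} (hR : 0 < R)
    {x : Euc n} {ε : ℝ} (hε : 0 < ε) (hs : ∀ y, h y ≠ 0 → ε ≤ ‖y - x‖ ∧ ‖y‖ ≤ R) :
    ∀ᵐ z ∂volume, z ∈ ball x (ε / 2) → T (h2.toLp h) z = ∫ y, K z y * h y := by
  obtain ⟨χ, hχs, hχ01, hχ1, hχ0⟩ := exists_cutoff x hε hR
  have hap : ∀ k : ℕ, ∃ g : Euc n → 𝕜, HasCompactSupport g ∧ ContDiff ℝ (⊤ : ℕ∞) g ∧
      eLpNorm (h - g) 2 volume ≤ ENNReal.ofReal (1 / ((k : ℝ) + 1)) := fun k =>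
    h2.exist_eLpNorm_sub_le (by norm_num) (by norm_num) (by positivity)
  choose φ hφc hφs hφ using hap
  let H : ℕ → Euc n → 𝕜 := fun k y => χ y • φ k y
  have hHs : ∀ k (m : ℕ), ContDiff ℝ m (H k) := fun k m =>
    (hχs m).smul ((hφs k).of_le (by exact_mod_cast le_top))
  have hHc : ∀ k, HasCompactSupport (H k) := fun k => (hφc k).smul_left (f := χ)
  have hH2 : ∀ k, MemLp (H k) 2 volume := fun k =>
    (hHs k 0).continuous.memLp_of_hasCompactSupport (hHc k)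
  have hHsupp : ∀ k y, H k y ≠ 0 → 3 * ε / 4 ≤ ‖y - x‖ ∧ ‖y‖ ≤ 2 * R := fun k y hy =>
    hχ0 y fun h0 => hy (by simp [H, h0])
  have hdiff : ∀ k y, (h - H k) y = χ y • (h - φ k) y := fun k y => by
    have : χ y • h y = h y := by
      by_cases hy : h y = 0
      · simp [hy]
      · rw [hχ1 y (hs y hy).1 (hs y hy).2, one_smul]
    simp only [Pi.sub_apply, smul_sub, this, H]
  have hnorm : ∀ k, eLpNorm (h - H k) 2 volume ≤ ENNReal.ofReal (1 / ((k : ℝ) + 1)) := fun k => by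
    refine (eLpNorm_mono fun y => ?_).trans (hφ k)
    rw [hdiff, norm_smul, Real.norm_of_nonneg (hχ01 y).1]
    exact mul_le_of_le_one_left (norm_nonneg _) (hχ01 y).2
  have hdsupp : ∀ k y, (h - H k) y ≠ 0 → 3 * ε / 4 ≤ ‖y - x‖ ∧ ‖y‖ ≤ 2 * R := fun k y hy =>
    hχ0 y fun h0 => hy (by rw [hdiff, h0, zero_smul])
  have hfin : volume (closedBall (0 : Euc n) (2 * R)) ≠ ∞ := measure_closedBall_lt_top.ne
  have toL1 : ∀ f : Euc n → 𝕜, MemLp f 2 volume → (∀ y, f y ≠ 0 → ‖y‖ ≤ 2 * R) →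
      Integrable f volume := fun f hf hfs => by
    rw [← memLp_one_iff_integrable]
    refine hf.mono_exponent_of_measure_support_ne_top (s := closedBall (0 : Euc n) (2 * R))
      (fun y hy => ?_) hfin (by norm_num)
    by_contra h0
    exact hy (by simpa using hfs y h0)
  -- convergence in `L^2`
  have hconv : Tendsto (fun k => (hH2 k).toLp (H k)) atTop (𝓝 (h2.toLp h)) := by
    rw [Lp.tendsto_Lp_iff_tendsto_eLpNorm'']
    have h0 : Tendsto (fun k : ℕ => ENNReal.ofReal (1 / ((k : ℝ) + 1))) atTop (𝓝 0) := by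
      simpa using ENNReal.tendsto_ofReal tendsto_one_div_add_atTop_nhds_zero_nat
    refine tendsto_of_tendsto_of_tendsto_of_le_of_le tendsto_const_nhds h0
      (fun _ => zero_le) fun k => ?_
    rw [eLpNorm_sub_comm]
    exact hnorm k
  have hconvT := (T.continuous.tendsto _).comp hconv
  obtain ⟨ns, hns, hae⟩ := (tendstoInMeasure_of_tendsto_Lp hconvT).exists_seq_tendsto_ae
  have hrepr : ∀ᵐ z ∂volume, ∀ k, z ∉ tsupport (H k) →
      T ((hH2 k).toLp (H k)) z = ∫ y, K z y * H k y :=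
    ae_all_iff.2 fun k => hT.repr (H k) (hHs k) (hHc k) (hH2 k)
  filter_upwards [hae, hrepr] with z hz1 hz2 hz
  have hfar : ∀ y, 3 * ε / 4 ≤ ‖y - x‖ → ε / 4 ≤ ‖z - y‖ := fun y hy => by
    have h1 : ‖z - x‖ < ε / 2 := by simpa [dist_eq_norm] using hz
    have h3 : ‖y - x‖ ≤ ‖z - y‖ + ‖z - x‖ := by
      calc ‖y - x‖ = ‖(z - x) - (z - y)‖ := by congr 1; abel
        _ ≤ ‖z - x‖ + ‖z - y‖ := norm_sub_le _ _
        _ = _ := add_comm _ _
    linarith
  have hnot : ∀ k, z ∉ tsupport (H k) := fun k hk => by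
    have hcl : IsClosed {y : Euc n | 3 * ε / 4 ≤ ‖y - x‖} :=
      isClosed_le continuous_const (by fun_prop)
    have := closure_minimal (fun y hy => (hHsupp k y hy).1) hcl hk
    have h3 := hfar z this
    simp at h3
    linarith
  have hε4 : 0 < ε / 4 := by positivity
  have hlim : Tendsto (fun k => ∫ y, K z y * H k y) atTop (𝓝 (∫ y, K z y * h y)) := by
    rw [tendsto_iff_norm_sub_tendsto_zero]
    set V : ℝ := ((volume (closedBall (0 : Euc n) (2 * R))) ^ (1 / 2 : ℝ)).toReal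
    have h0 : Tendsto (fun k : ℕ => (c * (ε / 4) ^ (-(n : ℝ))) * (1 / ((k : ℝ) + 1) * V)) atTop
        (𝓝 0) := by
      simpa using (tendsto_one_div_add_atTop_nhds_zero_nat.mul_const V).const_mul
        (c * (ε / 4) ^ (-(n : ℝ)))
    refine squeeze_zero (fun _ => norm_nonneg _) (fun k => ?_) h0
    have i1 : Integrable h volume := toL1 h h2 fun y hy => by linarith [(hs y hy).2]
    have i2 : Integrable (H k) volume := toL1 _ (hH2 k) fun y hy => (hHsupp k y hy).2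
    have j1 := ker_int hK hI i1 hε4 (z := z) fun y hy => hfar y (by linarith [(hs y hy).1])
    have j2 := ker_int hK hI i2 hε4 (z := z) fun y hy => hfar y (hHsupp k y hy).1
    rw [norm_sub_rev, ← integral_sub j1 j2]
    have e : (fun y => K z y * h y - K z y * H k y) = fun y => K z y * (h - H k) y := by
      funext y; simp [mul_sub]
    rw [e]
    refine (ker_int_le hK (i1.sub i2) hε4 fun y hy => hfar y (hdsupp k y hy).1).trans ?_
    refine mul_le_mul_of_nonneg_left ?_ (mul_nonneg hK.c_nonneg (by positivity))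
    exact integral_norm_le (h2.sub (hH2 k)) (fun y hy => (hdsupp k y hy).2) (by positivity)
      (hnorm k)
  have hlim2 : Tendsto (fun i => T ((hH2 (ns i)).toLp (H (ns i))) z) atTop
      (𝓝 (∫ y, K z y * h y)) := by
    have := hlim.comp hns.tendsto_atTop
    refine this.congr fun i => ?_
    exact (hz2 (ns i) (hnot _)).symm
  exact tendsto_nhds_unique hz1 hlim2

end Pool.Agent.MP_6bb8b9_an.H40
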